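import Mathlib

namespace Pool.Agent.Results.MP_c65526_co.PrincipalRatioBound

open Finset Matrix

/-- `q` is a principal eigenvector of the finite simple graph `H`: all its coordinates are
positive and it is an eigenvector of the adjacency matrix of `H` for the largest
(real) eigenvalue of the adjacency matrix. -/
def IsPrincipalEigenvector {V : Type*} [Fintype V] [DecidableEq V] (H : SimpleGraph V)
    [DecidableRel H.Adj] (q : V → ℝ) : Prop :=
  (∀ w, 0 < q w) ∧
    ∃ l : ℝ, IsGreatest {t : ℝ | ∃ y : V → ℝ, y ≠ 0 ∧ (H.adjMatrix ℝ) *ᵥ y = t • y} l ∧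
      (H.adjMatrix ℝ) *ᵥ q = l • q

section
variable {V : Type*} [Fintype V] [DecidableEq V]

/-- cut identity -/
lemma cut_sum (A : Matrix V V ℝ) (hA : A.IsSymm) (x : V → ℝ) (S : Finset V) :
    ∑ w ∈ S, ∑ z ∈ Sᶜ, A w z * (x z - x w) = ∑ w ∈ S, ∑ z, A w z * (x z - x w) := by
  have h0 : ∑ w ∈ S, ∑ z ∈ S, A w z * (x z - x w) = 0 := by
    have h1 : ∑ w ∈ S, ∑ z ∈ S, A w z * (x z - x w)
        = ∑ w ∈ S, ∑ z ∈ S, A w z * (x w - x z) := by
      rw [Finset.sum_comm]
      refine Finset.sum_congr rfl fun z _ => Finset.sum_congr rfl fun w _ => ?_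
      rw [hA.apply]
    have h2 : ∑ w ∈ S, ∑ z ∈ S, A w z * (x w - x z)
        = - ∑ w ∈ S, ∑ z ∈ S, A w z * (x z - x w) := by
      rw [← Finset.sum_neg_distrib]
      refine Finset.sum_congr rfl fun w _ => ?_
      rw [← Finset.sum_neg_distrib]
      refine Finset.sum_congr rfl fun z _ => ?_
      ring
    linarith
  have h3 : ∀ w, ∑ z, A w z * (x z - x w)
      = ∑ z ∈ S, A w z * (x z - x w) + ∑ z ∈ Sᶜ, A w z * (x z - x w) := fun w =>
    (Finset.sum_add_sum_compl S _).symm
  simp_rw [h3]
  rw [Finset.sum_add_distrib, h0, zero_add]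

omit [Fintype V] [DecidableEq V] in
/-- Lipschitz functions along walks -/
lemma walk_lip (H : SimpleGraph V) (y : V → ℝ) (c : ℝ)
    (h : ∀ a b, H.Adj a b → y b - y a ≤ c) :
    ∀ (a b : V) (p : H.Walk a b), y b - y a ≤ p.length * c := by
  intro a b p
  induction p with
  | nil => simp
  | cons hadj p ih =>
    have := h _ _ hadj
    rw [SimpleGraph.Walk.length_cons]
    push_cast
    linarith

omit [DecidableEq V] in
lemma conn_lip (H : SimpleGraph V) (hH : H.Connected) (y : V → ℝ) (c : ℝ) (hc : 0 ≤ c)
    (h : ∀ a b, H.Adj a b → y b - y a ≤ c) (a b : V) :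
    y b - y a ≤ (Fintype.card V - 1) * c := by
  obtain ⟨p, hp, -⟩ := hH.exists_path_of_dist a b
  have h1 := walk_lip H y c h a b p
  have h2 : p.length < Fintype.card V := hp.length_lt
  have h3 : ((p.length : ℝ)) + 1 ≤ Fintype.card V := by exact_mod_cast h2
  nlinarith

lemma core (H : SimpleGraph V) [DecidableRel H.Adj] (hH : H.Connected) (q : V → ℝ)
    (hq : ∀ w, 0 < q w) (δ : ℝ) (hδ : 0 < δ) (u v : V)
    (hrow : ∀ w, ∑ z, (H.adjMatrix ℝ) w z * (q z - q w)
      = - δ * q w + (if w = u then q u else 0) + (if w = v then q v else 0))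
    (hle : q u ≤ q v) :
    ∀ a b, q a ≤ (Fintype.card V : ℝ) ^ 2 * q b := by
  have hA : (H.adjMatrix ℝ).IsSymm := H.isSymm_adjMatrix
  have hcard : (1 : ℝ) ≤ Fintype.card V := by
    have : 0 < Fintype.card V := Fintype.card_pos_iff.mpr ⟨u⟩
    exact_mod_cast this
  -- the cut identity for sublevel sets
  have hcut : ∀ c : ℝ, ∑ w ∈ univ.filter (fun w => q w ≤ c),
      ∑ z ∈ (univ.filter (fun w => q w ≤ c))ᶜ, (H.adjMatrix ℝ) w z * (q z - q w)
      = - δ * (∑ w ∈ univ.filter (fun w => q w ≤ c), q w)
        + (if q u ≤ c then q u else 0) + (if q v ≤ c then q v else 0) := by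
    intro c
    rw [cut_sum _ hA]
    simp_rw [hrow]
    rw [Finset.sum_add_distrib, Finset.sum_add_distrib, ← Finset.mul_sum,
      Finset.sum_ite_eq', Finset.sum_ite_eq']
    simp
  have hnn : ∀ c : ℝ, ∀ w ∈ univ.filter (fun w => q w ≤ c),
      ∀ z ∈ (univ.filter (fun w => q w ≤ c))ᶜ, 0 ≤ (H.adjMatrix ℝ) w z * (q z - q w) := by
    intro c w hw z hz
    simp only [mem_filter, mem_univ, true_and, mem_compl, not_le] at hw hz
    apply mul_nonneg
    · rw [SimpleGraph.adjMatrix_apply]; split_ifs <;> norm_num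
    · linarith
  have hS0 : ∀ c : ℝ, 0 ≤ ∑ w ∈ univ.filter (fun w => q w ≤ c), q w := fun c =>
    Finset.sum_nonneg fun w _ => (hq w).le
  -- edge bound
  have hedge : ∀ a b, H.Adj a b → q b - q a ≤
      (if q u ≤ q a then q u else 0) + (if q v ≤ q a then q v else 0) := by
    intro a b hab
    have hr : 0 ≤ (if q u ≤ q a then q u else 0) + (if q v ≤ q a then q v else 0) := by
      have := (hq u).le
      have := (hq v).le
      split_ifs <;> linarith
    by_cases hlt : q a < q b
    · have ha : a ∈ univ.filter (fun w => q w ≤ q a) := by simp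
      have hb : b ∈ (univ.filter (fun w => q w ≤ q a))ᶜ := by simp [hlt]
      have h1 : (H.adjMatrix ℝ) a b * (q b - q a) ≤ ∑ w ∈ univ.filter (fun w => q w ≤ q a),
          ∑ z ∈ (univ.filter (fun w => q w ≤ q a))ᶜ, (H.adjMatrix ℝ) w z * (q z - q w) :=
        (Finset.single_le_sum (hnn (q a) a ha) hb).trans
          (Finset.single_le_sum (f := fun w => ∑ z ∈ (univ.filter (fun w => q w ≤ q a))ᶜ,
            (H.adjMatrix ℝ) w z * (q z - q w))
            (fun w hw => Finset.sum_nonneg (hnn (q a) w hw)) ha)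
      rw [hcut, SimpleGraph.adjMatrix_apply, if_pos hab] at h1
      have := mul_nonneg hδ.le (hS0 (q a))
      linarith
    · linarith
  -- the minimum is attained at `u`
  have hmin : ∀ w, q u ≤ q w := by
    obtain ⟨m, -, hm⟩ := Finset.exists_min_image (univ : Finset V) q ⟨u, mem_univ u⟩
    have h1 : 0 ≤ ∑ w ∈ univ.filter (fun w => q w ≤ q m),
          ∑ z ∈ (univ.filter (fun w => q w ≤ q m))ᶜ, (H.adjMatrix ℝ) w z * (q z - q w) :=
      Finset.sum_nonneg fun w hw => Finset.sum_nonneg (hnn (q m) w hw)
    rw [hcut] at h1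
    have h2 : 0 < ∑ w ∈ univ.filter (fun w => q w ≤ q m), q w :=
      Finset.sum_pos (fun w _ => hq w) ⟨m, by simp⟩
    have h3 : q u ≤ q m := by
      by_contra hcon
      have hcon2 : ¬ q v ≤ q m := fun h => hcon (hle.trans h)
      rw [if_neg hcon, if_neg hcon2] at h1
      have := mul_pos hδ h2
      linarith
    intro w
    exact h3.trans (hm w (mem_univ w))
  -- comparison of `q v` and `q u`
  have huv : q v ≤ Fintype.card V * q u := by
    have h1 := conn_lip H hH (fun w => min (q w) (q v)) (q u) (hq u).le (by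
      intro a b hab
      by_cases hav : q v ≤ q a
      · have h2 : min (q a) (q v) = q v := min_eq_right hav
        have h3 : min (q b) (q v) ≤ q v := min_le_right _ _
        have := (hq u).le
        simp only [h2]
        linarith
      · have h2 := hedge a b hab
        rw [if_neg hav, if_pos (hmin a)] at h2
        have h3 : min (q a) (q v) = q a := min_eq_left (not_le.mp hav).le
        have h4 : min (q b) (q v) ≤ q b := min_le_left _ _
        simp only [h3]
        linarith) u v
    simp only [min_self, min_eq_left hle] at h1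
    linarith
  have hfin : ∀ a, q a ≤ (Fintype.card V : ℝ) ^ 2 * q u := by
    intro a
    have h1 := conn_lip H hH q (q u + q v) (add_nonneg (hq u).le (hq v).le) (by
      intro a b hab
      have h2 := hedge a b hab
      have := (hq u).le
      have := (hq v).le
      split_ifs at h2 <;> linarith) u a
    have h5 : ((Fintype.card V : ℝ) - 1) * (q u + q v)
        ≤ ((Fintype.card V : ℝ) - 1) * (q u + Fintype.card V * q u) :=
      mul_le_mul_of_nonneg_left (by linarith) (by linarith)
    nlinarith
  intro a b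
  exact (hfin a).trans (mul_le_mul_of_nonneg_left (hmin b) (by positivity))

end

/-- **Polynomial bound for the principal ratio.**  If `G` is a connected regular graph on
`n ≥ 3` vertices and `s(u, v)` is an edge of `G` which is not a bridge, then the principal
ratio of `G - s(u, v)` is at most `n ^ 2`. -/
theorem result : ∀ (V : Type) [Fintype V] [DecidableEq V] (G : SimpleGraph V)
    [DecidableRel G.Adj] (d : ℕ) (u v : V),
    3 ≤ Fintype.card V → G.Connected → G.IsRegularOfDegree d → G.Adj u v →
    ¬ G.IsBridge s(u, v) →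
    ∀ q : V → ℝ, IsPrincipalEigenvector (G.deleteEdges {s(u, v)}) q →
      (⨆ w, q w) / (⨅ w, q w) ≤ (Fintype.card V : ℝ) ^ 2 := by
  intro V _ _ G _ d u v hn hG hd huv hbr q hq
  obtain ⟨hpos, l, -, hl⟩ := hq
  have hne : u ≠ v := huv.ne
  set H := G.deleteEdges {s(u, v)} with hHdef
  have hH : H.Connected := hG.connected_delete_edge_of_not_isBridge hbr
  -- row sums of the adjacency matrix
  have hdeg : ∀ w, ∑ z, (H.adjMatrix ℝ) w z
      = d - (if w = u then 1 else 0) - (if w = v then 1 else 0) := by
    intro w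
    have h1 : ∑ z, (G.adjMatrix ℝ) w z = d := by
      have h := hd w
      have h2 := G.degree_eq_sum_if_adj (R := ℝ) w
      rw [h] at h2
      rw [h2]
      exact Finset.sum_congr rfl fun z _ => by rw [SimpleGraph.adjMatrix_apply]
    have h2 : ∀ z, (H.adjMatrix ℝ) w z = (G.adjMatrix ℝ) w z
        - (if z = v then (if w = u then 1 else 0) else 0)
        - (if z = u then (if w = v then 1 else 0) else 0) := by
      intro z
      simp only [SimpleGraph.adjMatrix_apply, hHdef, SimpleGraph.deleteEdges_adj,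
        Set.mem_singleton_iff, Sym2.eq_iff]
      by_cases hwu : w = u
      · subst hwu
        by_cases hzv : z = v
        · subst hzv
          simp [huv, hne]
        · simp [hzv, hne]
      · by_cases hwv : w = v
        · subst hwv
          by_cases hzu : z = u
          · subst hzu
            simp [huv.symm, hwu]
          · simp [hzu, hwu]
        · simp [hwu, hwv]
    simp_rw [h2]
    rw [Finset.sum_sub_distrib, Finset.sum_sub_distrib, h1, Finset.sum_ite_eq',
      Finset.sum_ite_eq']
    simp
  have heig : ∀ w, ∑ z, (H.adjMatrix ℝ) w z * q z = l * q w := by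
    intro w
    exact congrFun hl w
  have hrow : ∀ w, ∑ z, (H.adjMatrix ℝ) w z * (q z - q w)
      = - (d - l) * q w + (if w = u then q u else 0) + (if w = v then q v else 0) := by
    intro w
    simp_rw [mul_sub]
    rw [Finset.sum_sub_distrib, heig, ← Finset.sum_mul, hdeg]
    by_cases hwu : w = u
    · subst hwu
      simp only [if_true, hne, if_false]
      ring
    · by_cases hwv : w = v
      · subst hwv
        simp only [hwu, if_false, if_true]
        ring
      · simp only [hwu, hwv, if_false]
        ring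
  have hδ : 0 < (d : ℝ) - l := by
    have h1 := cut_sum (H.adjMatrix ℝ) H.isSymm_adjMatrix q univ
    simp_rw [hrow] at h1
    rw [Finset.sum_add_distrib, Finset.sum_add_distrib, ← Finset.mul_sum,
      Finset.sum_ite_eq', Finset.sum_ite_eq'] at h1
    simp only [compl_univ, sum_empty, sum_const_zero, mem_univ, if_true] at h1
    have h2 : 0 < ∑ w, q w := Finset.sum_pos (fun w _ => hpos w) ⟨u, mem_univ u⟩
    have h3 := hpos u
    have h4 := hpos v
    by_contra hcon
    have h5 : ((d : ℝ) - l) * ∑ w, q w ≤ 0 :=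
      mul_nonpos_of_nonpos_of_nonneg (not_lt.mp hcon) h2.le
    linarith
  have hkey : ∀ a b, q a ≤ (Fintype.card V : ℝ) ^ 2 * q b := by
    rcases le_total (q u) (q v) with hle | hle
    · exact core H hH q hpos _ hδ u v hrow hle
    · refine core H hH q hpos _ hδ v u ?_ hle
      intro w
      rw [hrow w]
      ring
  have : Nonempty V := ⟨u⟩
  have hinf : ∃ b, (⨅ w, q w) = q b := by
    obtain ⟨b, hb⟩ := exists_eq_ciInf_of_finite (f := q)
    exact ⟨b, hb.symm⟩
  have hsup : ∃ a, (⨆ w, q w) = q a := by
    obtain ⟨a, ha⟩ := exists_eq_ciSup_of_finite (f := q)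
    exact ⟨a, ha.symm⟩
  obtain ⟨b, hb⟩ := hinf
  obtain ⟨a, ha⟩ := hsup
  rw [ha, hb, div_le_iff₀ (hpos b)]
  exact hkey a b

end Pool.Agent.Results.MP_c65526_co.PrincipalRatioBound
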